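import Mathlib

namespace Pool.Agent.Results.MP_e25d14_pr.Drift

open Finset

/-- `hit P y k x = P_x(τ(y) = k)`: total weight of the paths `x = w 0, …, w k = y`
that avoid `y` before time `k`. -/
noncomputable def hit {n : ℕ} (P : Matrix (Fin n) (Fin n) ℝ) (y : Fin n) (k : ℕ) (x : Fin n) : ℝ :=
  ∑ w : Fin (k + 1) → Fin n with w 0 = x ∧ w (Fin.last k) = y ∧ ∀ i : Fin k, w i.castSucc ≠ y,
    ∏ i : Fin k, P (w i.castSucc) (w i.succ)

def f {n : ℕ} (i j : Fin n) : ℕ := if (j : ℕ) = i + 1 ∨ (i : ℕ) = j + 1 then max (i : ℕ) j else 0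

lemma fs {n : ℕ} (i j : Fin n) : f i j = f j i := by unfold f; grind

theorem result (C : ℝ) : ∃ (n : ℕ) (P : Matrix (Fin n) (Fin n) ℝ) (π : Fin n → ℝ) (x y : Fin n)
    (t : ℕ), (∀ u v, 0 < P u v) ∧ (∀ u, ∑ v, P u v = 1) ∧ (∀ u, 0 < π u) ∧ ∑ u, π u = 1 ∧
    (∀ v, ∑ u, π u * P u v = π v) ∧ (∀ u v, π u * P u v = π v * P v u) ∧ 1 ≤ t ∧
    C / t * √(max 1 (Real.log (1 / π x))) < hit P y t x := by
  obtain ⟨m, hm⟩ := exists_nat_gt (72 * C ^ 2 + 2)
  have m2 : (2 : ℝ) < m := by nlinarith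
  obtain ⟨n, hn⟩ : ∃ n : ℕ, n = m ^ 2 := ⟨_, rfl⟩
  have hn' : (n : ℝ) = m ^ 2 := by simp [hn]
  have n4 : (4 : ℝ) < n := by nlinarith
  obtain ⟨M, hM⟩ : ∃ M : ℝ, M = 2 * n ^ 2 := ⟨_, rfl⟩
  have M1 : 2 ≤ M := by nlinarith
  let r (i : Fin (n + 1)) : ℝ := ∑ j, M ^ f i j
  have r1 (i) : 1 ≤ r i := (one_le_pow₀ (by linarith)).trans
    (single_le_sum (f := fun j => M ^ f i j) (fun _ _ => by positivity) (mem_univ i))
  have r0 (i) : 0 < r i := one_pos.trans_le (r1 i)
  have W0 : 0 < ∑ i, r i := sum_pos (fun i _ => r0 i) univ_nonempty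
  have rev (u v) : r u / (∑ i, r i) * (M ^ f u v / r u) = r v / (∑ i, r i) * (M ^ f v u / r v) := by
    have := r0 u; have := r0 v
    rw [fs u v]; field_simp
  have row (u) : ∑ v, M ^ f u v / r u = 1 := by rw [← sum_div, div_self (r0 u).ne']
  refine ⟨n + 1, fun i j => M ^ f i j / r i, fun i => r i / ∑ i, r i, 0, Fin.last n, n,
    fun u v => div_pos (by positivity) (r0 u), row, fun u => div_pos (r0 u) W0,
    by rw [← sum_div, div_self W0.ne'], fun v => ?_, rev, by exact_mod_cast (by linarith : (1 : ℝ) ≤ n), ?_⟩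
  · simp only [fun u => rev u v, ← mul_sum, row, mul_one]
  have step (i : Fin n) : 1 - n / M ≤ M ^ f i.castSucc i.succ / r i.castSucc := by
    have e : f i.castSucc i.succ = i + 1 := by simp [f]
    have : r i.castSucc ≤ M ^ (i + 1 : ℕ) + n * M ^ (i : ℕ) := by
      simp only [r]
      rw [← add_sum_erase _ _ (mem_univ i.succ), e]
      gcongr
      refine (sum_le_card_nsmul _ _ (M ^ (i : ℕ)) fun j hj => pow_le_pow_right₀ (by linarith) ?_).trans
        (by simp)
      have : (j : ℕ) ≠ i + 1 := fun h => (mem_erase.1 hj).1 (Fin.ext h)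
      simp only [f, Fin.val_castSucc]; grind
    have a : 0 ≤ 1 - n / M := by rw [sub_nonneg, div_le_one (by linarith)]; nlinarith
    rw [le_div_iff₀ (r0 _), e]
    refine (mul_le_mul_of_nonneg_left this a).trans ?_
    have : (1 - n / M) * (M ^ (i + 1 : ℕ) + n * M ^ (i : ℕ)) = M ^ (i + 1 : ℕ) - n ^ 2 / M * M ^ (i : ℕ) := by
      rw [pow_succ]; field_simp; ring
    rw [this]
    exact sub_le_self _ (by positivity)
  have a : 0 ≤ 1 - n / M := by rw [sub_nonneg, div_le_one (by linarith)]; nlinarith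
  have low : 1 / 2 ≤ hit (fun i j => M ^ f i j / r i) (Fin.last n) n 0 := by
    refine le_trans ?_ (single_le_sum (a := id) (fun w _ => prod_nonneg fun i _ =>
      (div_pos (by positivity) (r0 _)).le) (by simp [Fin.castSucc_ne_last]))
    refine le_trans ?_ (prod_le_prod (f := fun _ => 1 - n / M) (fun _ _ => a) fun i _ => step i)
    have := one_add_mul_le_pow (a := -(n / M)) (by linarith) n
    have e : (n : ℝ) * -(n / M) = -(1 / 2) := by rw [hM]; field_simp
    simp only [prod_const, card_univ, Fintype.card_fin]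
    rw [e, ← sub_eq_add_neg, ← sub_eq_add_neg] at this
    linarith
  have up : Real.log (1 / (r 0 / ∑ i, r i)) ≤ 18 * m ^ 3 := by
    have h1 : ∑ i, r i ≤ M ^ (n + 2) := by
      refine (sum_le_card_nsmul _ _ ((n + 1) * M ^ n) fun i _ => (sum_le_card_nsmul _ _ (M ^ n)
        fun j _ => pow_le_pow_right₀ (by linarith) ?_).trans (by simp)).trans ?_
      · have := i.2; have := j.2; unfold f; grind
      · simp only [card_univ, Fintype.card_fin, nsmul_eq_mul, pow_add]
        push_cast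
        have : ((n : ℝ) + 1) * (n + 1) ≤ M ^ 2 := by nlinarith
        have : 0 < M ^ n := by positivity
        nlinarith
    have h2 : 1 / (r 0 / ∑ i, r i) ≤ M ^ (n + 2) := by
      rw [one_div_div]; exact (div_le_self W0.le (r1 0)).trans h1
    refine (Real.log_le_log (one_div_pos.2 (div_pos (r0 0) W0)) h2).trans ?_
    have h3 : Real.log M ≤ 6 * m := by
      have : M ≤ m ^ 6 := by
        rw [hM, hn']
        have : (2 : ℝ) ≤ m ^ 2 := by nlinarith
        have : (0 : ℝ) < (m ^ 2) ^ 2 := by positivity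
        nlinarith
      refine (Real.log_le_log (by linarith) this).trans ?_
      have := Real.log_le_self (x := m) (by linarith)
      rw [Real.log_pow]; push_cast; linarith
    rw [Real.log_pow]; push_cast
    have : (n + 2 : ℝ) ≤ 3 * m ^ 2 := by linarith
    calc _ ≤ (3 * m ^ 2) * (6 * m : ℝ) := by
          gcongr; exact Real.log_nonneg (by linarith)
      _ = _ := by ring
  refine lt_of_lt_of_le (lt_of_pow_lt_pow_left₀ 2 (by norm_num) ?_) low
  have m3 : (1 : ℝ) ≤ 18 * m ^ 3 := by have : (1 : ℝ) ≤ m ^ 3 := one_le_pow₀ (by linarith); linarith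
  rw [mul_pow, Real.sq_sqrt (zero_le_one.trans (le_max_left _ _))]
  refine (mul_le_mul_of_nonneg_left (max_le m3 up) (by positivity)).trans_lt ?_
  have : (C / n) ^ 2 * (18 * m ^ 3) = 18 * C ^ 2 / m := by rw [hn']; field_simp
  rw [this, div_lt_iff₀ (by linarith)]
  linarith

end Pool.Agent.Results.MP_e25d14_pr.Drift
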